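import Pool.Agent.H20.ER3.Lib

set_option autoImplicit false

namespace Pool.Agent.H46.ER3

open Pool.Agent.H48.ER Pool.Agent.H52.ER2 Pool.Agent.H66.ER2 Pool.Agent.H20.ER3

theorem pf_AR (hAC : U_AC) : U_AR := by
  classical
  intro V _ o G R F N w hNOH hEv hA hN hsub hmin hw0
  -- all vertices are outside of `R`
  have hout : ∀ i, i < N → w i ∈ {x : V ⊕ Set V | ∀ r ∈ R, x ≠ Sum.inl r} := by
    intro i hi
    by_cases h1 : i + 3 < N
    · have := (hA.adj i (i + 2) hi (by omega) (by omega)).2 (by omega)
      exact this.1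
    · have := (hA.adj (i - 2) i (by omega) hi (by omega)).2 (by omega)
      exact this.2.1
  have hadj : ∀ i j, i < N → j < N → ((OC G R).Adj (w i) (w j) ↔ (MG G R).Adj (w i) (w j)) :=
    fun i j hi hj => ⟨fun h => h.2.2, fun h => ⟨hout i hi, hout j hj, h⟩⟩
  have hnR : ∀ i v, i < N → w i = Sum.inl v → v ∉ R := by
    intro i v hi hv hvR
    exact hout i hi v hvR hv
  -- the middle vertices see `F`
  have hmid : ∀ i, 2 ≤ i → i + 2 ≤ N → ∃ v, w i = Sum.inl v ∧ Sees G R F v := by
    intro i h2 h3
    have h := (hA.adj 0 i (by omega) (by omega) (by omega)).2 (by omega)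
    rw [hadj 0 i (by omega) (by omega), hw0] at h
    exact root_adj h
  obtain ⟨v2, hv2, hs2⟩ := hmid 2 le_rfl (by omega)
  obtain ⟨-, hFR, hFC, -⟩ := hs2
  -- choose names
  let u : ℕ → V := fun i => Sum.elim id (fun _ => v2) (w i)
  have hu : ∀ i v, w i = Sum.inl v → u i = v := by
    intro i v hv
    simp [u, hv]
  have hui : ∀ i, 2 ≤ i → i + 2 ≤ N → w i = Sum.inl (u i) ∧ Sees G R F (u i) := by
    intro i h2 h3
    obtain ⟨v, hv, hs⟩ := hmid i h2 h3
    rw [hu i v hv]
    exact ⟨hv, hs⟩
  -- the vertices at distance one from the root do not see `F`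
  have hend : ∀ i v, (i = 1 ∨ i + 1 = N) → w i = Sum.inl v → ¬ Sees G R F v := by
    intro i v hi hv hs
    have h : (OC G R).Adj (w 0) (w i) := by
      rw [hadj 0 i (by omega) (by omega), hw0, hv]
      exact hs
    exact ((hA.adj 0 i (by omega) (by omega) (by omega)).1 h) (by omega)
  have huadj : ∀ i j, 2 ≤ i → i < j → j + 2 ≤ N →
      u i ≠ u j ∧ (G.Adj (u i) (u j) ↔ i + 1 ≠ j) := by
    intro i j h2 hij hj
    have hi' := (hui i h2 (by omega)).1
    have hj' := (hui j (by omega) hj).1
    refine ⟨fun he => ?_, ?_⟩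
    · have := hA.inj i j (by omega) (by omega) (by rw [hi', hj', he])
      omega
    · have h := hA.adj i j (by omega) (by omega) (by omega)
      rw [hadj i j (by omega) (by omega), hi', hj', mg_ll] at h
      rw [h]
      constructor
      · intro h1 h2; exact h1 (by omega)
      · intro h1 h2; exact h1 (by omega)
  -- the condition (NC)
  have hNC : ∀ F' ⊆ F, Cn G F' → (∀ i, 2 ≤ i → i + 2 ≤ N → ∃ f ∈ F', G.Adj (u i) f) ∨
      ∀ i, 2 ≤ i → i + 3 ≤ N →
        ¬ ((∃ f ∈ F', G.Adj (u i) f) ∧ ∃ f ∈ F', G.Adj (u (i + 1)) f) := by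
    intro F' hF' hC'
    by_contra hcon
    push Not at hcon
    obtain ⟨⟨i1, hi1, hi1', hno⟩, i0, hi0, hi0', hse0, hse1⟩ := hcon
    set S : ℕ → Prop := fun i => ∃ f ∈ F', G.Adj (u i) f with hS
    have hno' : ¬ S i1 := by
      rintro ⟨f, hf, ha⟩
      exact hno f hf ha
    -- the left end of the run
    have hleft : ∃ s, 2 ≤ s ∧ s ≤ i0 ∧ (∀ i, s ≤ i → i ≤ i0 → S i) ∧ (s = 2 ∨ ¬ S (s - 1)) := by
      have hex : ∃ s, 2 ≤ s ∧ s ≤ i0 ∧ (∀ i, s ≤ i → i ≤ i0 → S i) :=
        ⟨i0, hi0, le_rfl, fun i h1 h2 => by
          have : i = i0 := le_antisymm h2 h1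
          rw [this]; exact hse0⟩
      refine ⟨Nat.find hex, (Nat.find_spec hex).1, (Nat.find_spec hex).2.1,
        (Nat.find_spec hex).2.2, ?_⟩
      by_contra hcon
      push Not at hcon
      have h2 := (Nat.find_spec hex).1
      have hlt : Nat.find hex - 1 < Nat.find hex := by omega
      refine Nat.find_min hex hlt ⟨by omega, by have := (Nat.find_spec hex).2.1; omega, ?_⟩
      intro i h3 h4
      by_cases h5 : i = Nat.find hex - 1
      · rw [h5]; exact hcon.2
      · exact (Nat.find_spec hex).2.2 i (by omega) h4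
    have hright : ∃ t, i0 + 1 ≤ t ∧ t + 2 ≤ N ∧ (∀ i, i0 + 1 ≤ i → i ≤ t → S i) ∧
        (t + 2 = N ∨ ¬ S (t + 1)) := by
      have hex : ∃ d, i0 + 1 + d + 2 ≤ N ∧ (i0 + 1 + d + 2 = N ∨ ¬ S (i0 + 1 + d + 1)) :=
        ⟨N - 2 - (i0 + 1), by omega, Or.inl (by omega)⟩
      refine ⟨i0 + 1 + Nat.find hex, by omega, (Nat.find_spec hex).1, ?_,
        (Nat.find_spec hex).2⟩
      intro i h1 h2
      by_cases h3 : i = i0 + 1
      · rw [h3]; exact hse1
      · have hlt : i - (i0 + 1) - 1 < Nat.find hex := by omega
        have := Nat.find_min hex hlt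
        push Not at this
        have h4 := (this (by have := (Nat.find_spec hex).1; omega)).2
        have h5 : i0 + 1 + (i - (i0 + 1) - 1) + 1 = i := by omega
        rw [h5] at h4
        exact h4
    obtain ⟨s, hs2, hsi, hsS, hsl⟩ := hleft
    obtain ⟨t, hti, htN, htS, htr⟩ := hright
    have hrun : ∀ i, s ≤ i → i ≤ t → S i := by
      intro i h1 h2
      by_cases h3 : i ≤ i0
      · exact hsS i h1 h3
      · exact htS i (by omega) h2
    have hst : t - s + 5 ≤ N := by
      by_contra hc
      have e1 : s = 2 := by omega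
      have e2 : t + 2 = N := by omega
      exact hno' (hrun i1 (by omega) (by omega))
    have hF'R : F' ⊆ R := hF'.trans hFR
    have hsee : ∀ i, 2 ≤ i → i + 2 ≤ N → (Sees G R F' (u i) ↔ S i) := by
      intro i h1 h2
      constructor
      · rintro ⟨_, _, _, h⟩; exact h
      · intro h
        exact ⟨(hui i h1 h2).2.1, hF'R, hC', h⟩
    -- adjacency of the new root
    have hroot : ∀ i, s - 1 ≤ i → i ≤ t + 1 →
        ((MG G R).Adj (Sum.inr F') (w i) ↔ s ≤ i ∧ i ≤ t) := by
      intro i h1 h2
      by_cases h3 : 2 ≤ i ∧ i + 2 ≤ N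
      · rw [(hui i h3.1 h3.2).1, mg_rl, hsee i h3.1 h3.2]
        constructor
        · intro h
          by_contra hc
          rcases hsl with e | e
          · rcases htr with e' | e'
            · omega
            · have : i = t + 1 := by omega
              rw [this] at h
              exact e' h
          · by_cases h4 : i = s - 1
            · rw [h4] at h; exact e h
            · have h5 : i = t + 1 := by omega
              rcases htr with e' | e'
              · omega
              · rw [h5] at h; exact e' h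
        · rintro ⟨h4, h5⟩
          exact hrun i h4 h5
      · constructor
        · intro h
          exfalso
          obtain ⟨v, hv, hs⟩ := root_adj h
          exact hend i v (by omega) hv (hs.mono hF' hFR hFC)
        · rintro ⟨h4, h5⟩
          omega
    have hne : ∀ i, s - 1 ≤ i → i ≤ t + 1 → w i ≠ Sum.inr F' := by
      intro i h1 h2 he
      by_cases h3 : 2 ≤ i ∧ i + 2 ≤ N
      · rw [(hui i h3.1 h3.2).1] at he
        cases he
      · by_cases h4 : i = s - 1
        · have h5 : ¬ (OC G R).Adj (w i) (w s) := by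
            rw [hA.adj i s (by omega) (by omega) (by omega)]
            intro h; exact h (by omega)
          apply h5
          rw [hadj i s (by omega) (by omega), he]
          exact (hroot s (by omega) (by omega)).2 ⟨le_rfl, by omega⟩
        · have h5 : ¬ (OC G R).Adj (w i) (w t) := by
            rw [hA.adj i t (by omega) (by omega) (by omega)]
            intro h; exact h (by omega)
          apply h5
          rw [hadj i t (by omega) (by omega), he]
          exact (hroot t (by omega) (by omega)).2 ⟨by omega, le_rfl⟩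
    have hF'out : (Sum.inr F' : V ⊕ Set V) ∈ {x : V ⊕ Set V | ∀ r ∈ R, x ≠ Sum.inl r} := by
      intro r _ he
      cases he
    let w' : ℕ → V ⊕ Set V := fun i => if i = 0 then Sum.inr F' else w (s - 1 + (i - 1))
    have hw'0 : w' 0 = Sum.inr F' := by simp [w']
    have hw'1 : ∀ i, i ≠ 0 → w' i = w (s - 1 + (i - 1)) := by
      intro i hi
      simp [w', hi]
    refine hmin (t - s + 4) w' (by omega) (by omega) ⟨?_, ?_⟩ ?_
    · intro i j hi hj he
      by_cases h1 : i = 0 <;> by_cases h2 : j = 0
      · omega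
      · exfalso
        rw [h1, hw'0, hw'1 j h2] at he
        exact hne _ (by omega) (by omega) he.symm
      · exfalso
        rw [h2, hw'0, hw'1 i h1] at he
        exact hne _ (by omega) (by omega) he
      · rw [hw'1 i h1, hw'1 j h2] at he
        have := hA.inj _ _ (by omega) (by omega) he
        omega
    · have key : ∀ j, j ≠ 0 → j < t - s + 4 → ((OC G R).Adj (w' 0) (w' j) ↔
          ¬ (0 + 1 = j ∨ j + 1 = t - s + 4)) := by
        intro j hj hj'
        rw [hw'0, hw'1 j hj]
        have h1 : (OC G R).Adj (Sum.inr F') (w (s - 1 + (j - 1))) ↔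
            (MG G R).Adj (Sum.inr F') (w (s - 1 + (j - 1))) :=
          ⟨fun h => h.2.2, fun h => ⟨hF'out, hout _ (by omega), h⟩⟩
        rw [h1, hroot _ (by omega) (by omega)]
        constructor
        · rintro ⟨h2, h3⟩ h4
          omega
        · intro h2
          constructor <;> omega
      intro i j hi hj hij
      by_cases h1 : i = 0
      · rw [h1, key j (by omega) hj]
        constructor
        · intro h2 h3; exact h2 (by omega)
        · intro h2 h3; exact h2 (by omega)
      · by_cases h2 : j = 0
        · rw [h2, SimpleGraph.adj_comm, key i h1 hi]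
          constructor
          · intro h2 h3; exact h2 (by omega)
          · intro h2 h3; exact h2 (by omega)
        · rw [hw'1 i h1, hw'1 j h2, hA.adj _ _ (by omega) (by omega) (by omega)]
          constructor
          · intro h2 h3; exact h2 (by omega)
          · intro h2 h3; exact h2 (by omega)
    · intro ho
      have hs := hsub ho
      have hroots : ∀ j E, 0 < j → j < N → w j ≠ Sum.inr E := by
        intro j E h1 h2 he
        have hE : E ∈ rt {v | ∃ i, i < N ∧ w i = v} := ⟨j, h2, he⟩
        have hFm : F ∈ rt {v | ∃ i, i < N ∧ w i = v} := ⟨0, by omega, hw0⟩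
        have := hs hE hFm
        rw [this, ← hw0] at he
        have := hA.inj j 0 h2 (by omega) he
        omega
      have hall : ∀ E, E ∈ rt {v | ∃ i, i < t - s + 4 ∧ w' i = v} → E = F' := by
        rintro E ⟨i, hi, he⟩
        by_cases h1 : i = 0
        · rw [h1, hw'0] at he
          exact (Sum.inr.inj he).symm
        · rw [hw'1 i h1] at he
          exact absurd he (hroots _ E (by omega) (by omega))
      intro E hE E' hE'
      rw [hall E hE, hall E' hE']
  obtain ⟨f, hf, hfa⟩ := hAC V G R F N u hNOH hEv hFR hFC hN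
    (fun i h1 h2 => ⟨(hui i h1 h2).2.1, (hui i h1 h2).2.2.2.2⟩) huadj hNC
  refine ⟨hFR, f, hf, ?_⟩
  intro i v hi0 hiN hiv
  constructor
  · intro ha
    by_contra hc
    exact hend i v (by omega) hiv ⟨hnR i v hiN hiv, hFR, hFC, f, hf, ha⟩
  · rintro ⟨h1, h2⟩
    have := hfa i h1 h2
    rw [hu i v hiv] at this
    exact this

end Pool.Agent.H46.ER3
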